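import Pool.Agent.W982.TA.Stm2

/-! Subtask TA-S4 (13675) of project TA (owner helper982): soundness of `crossCC`. -/

set_option autoImplicit false

namespace Pool.Agent.W982.TA

theorem s4_half {s : ℤ} {u' w' d u w : Pt} {i j i' j' : ℤ} (hi : 1 ≤ i) (hj : 1 ≤ j)
    (hi' : 1 ≤ i') (hj' : 1 ≤ j') (H : halfCC s u' w' d u w = true) :
    0 < s * ((i' * u'.1 + j' * w'.1) * (-d.2) - (i' * u'.2 + j' * w'.2) * (-d.1)) ∧
    s * ((i' * u'.1 + j' * w'.1) * (i * u.2 + j * w.2 - d.2) -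
      (i' * u'.2 + j' * w'.2) * (i * u.1 + j * w.1 - d.1)) < 0 := by
  simp only [halfCC, Bool.and_eq_true, decide_eq_true_eq] at H
  obtain ⟨⟨⟨⟨⟨⟨⟨⟨⟨h1, h2⟩, h3⟩, h4⟩, h5⟩, h6⟩, h7⟩, h8⟩, h9⟩, h10⟩ := H
  generalize ha1 : -(s * dtv u' d) = a1 at *
  generalize ha2 : -(s * dtv w' d) = a2 at *
  generalize hp1 : s * dtv u' u = p1 at *
  generalize hq1 : s * dtv u' w = q1 at *
  generalize hp2 : s * dtv w' u = p2 at *
  generalize hq2 : s * dtv w' w = q2 at *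
  have e1 : s * ((i' * u'.1 + j' * w'.1) * (-d.2) - (i' * u'.2 + j' * w'.2) * (-d.1)) =
      i' * a1 + j' * a2 := by
    rw [← ha1, ← ha2]; unfold dtv; ring
  have e2 : s * ((i' * u'.1 + j' * w'.1) * (i * u.2 + j * w.2 - d.2) -
      (i' * u'.2 + j' * w'.2) * (i * u.1 + j * w.1 - d.1)) =
      i' * (a1 + i * p1 + j * q1) + j' * (a2 + i * p2 + j * q2) := by
    rw [← ha1, ← ha2, ← hp1, ← hp2, ← hq1, ← hq2]; unfold dtv; ring
  rw [e1, e2]
  have up : ∀ {c x : ℤ}, 1 ≤ c → 0 ≤ x → x ≤ c * x := fun hc hx =>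
    le_mul_of_one_le_left hx hc
  have dn : ∀ {c x : ℤ}, 1 ≤ c → x ≤ 0 → c * x ≤ x := by
    intro c x hc hx
    linarith [mul_nonneg (sub_nonneg.2 hc) (neg_nonneg.2 hx)]
  have k1 : a1 ≤ i' * a1 := up hi' h1
  have k2 : a2 ≤ j' * a2 := up hj' h2
  have k3 : i * p1 ≤ p1 := dn hi h4
  have k4 : j * q1 ≤ q1 := dn hj h5
  have k5 : i * p2 ≤ p2 := dn hi h6
  have k6 : j * q2 ≤ q2 := dn hj h7
  refine ⟨by linarith, ?_⟩
  have k7 : i' * (a1 + i * p1 + j * q1) ≤ i' * (a1 + p1 + q1) :=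
    mul_le_mul_of_nonneg_left (by linarith) (by linarith)
  have k8 : j' * (a2 + i * p2 + j * q2) ≤ j' * (a2 + p2 + q2) :=
    mul_le_mul_of_nonneg_left (by linarith) (by linarith)
  have k9 : i' * (a1 + p1 + q1) ≤ a1 + p1 + q1 := dn hi' h8
  have k10 : j' * (a2 + p2 + q2) ≤ a2 + p2 + q2 := dn hj' h9
  linarith

theorem s4_comb {s t a b x1 x2 z1 z2 d1 d2 : ℤ} (hs : s = 1 ∨ s = -1) (ht : t = 1 ∨ t = -1)
    (ha : a = 1 ∨ a = -1) (hb : b = 1 ∨ b = -1)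
    (h1 : 0 < s * (x1 * (-d2) - x2 * (-d1)))
    (h2 : s * (x1 * (a * z2 - d2) - x2 * (a * z1 - d1)) < 0)
    (h3 : 0 < t * (z1 * d2 - z2 * d1))
    (h4 : t * (z1 * (b * x2 + d2) - z2 * (b * x1 + d1)) < 0) :
    PCross (-z1, -z2) (z1, z2) (d1 - x1, d2 - x2) (d1 + x1, d2 + x2) := by
  unfold PCross dt
  refine ⟨?_, ?_⟩
  · rw [mul_neg_iff]
    rcases hs with rfl | rfl <;> rcases ht with rfl | rfl <;> rcases ha with rfl | rfl <;>
      rcases hb with rfl | rfl <;>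
      first
        | (left; constructor <;> dsimp only <;> nlinarith)
        | (right; constructor <;> dsimp only <;> nlinarith)
  · rw [mul_neg_iff]
    rcases hs with rfl | rfl <;> rcases ht with rfl | rfl <;> rcases ha with rfl | rfl <;>
      rcases hb with rfl | rfl <;>
      first
        | (left; constructor <;> dsimp only <;> nlinarith)
        | (right; constructor <;> dsimp only <;> nlinarith)

theorem s4_core {s t a b : ℤ} {u w d u' w' u1 w1 u1' w1' : Pt} {i j i' j' : ℤ}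
    (hs : s = 1 ∨ s = -1) (ht : t = 1 ∨ t = -1)
    (ha : a = 1 ∨ a = -1) (hb : b = 1 ∨ b = -1) (hi : 1 ≤ i) (hj : 1 ≤ j)
    (hi' : 1 ≤ i') (hj' : 1 ≤ j')
    (eu : u1 = (a * u.1, a * u.2)) (ew : w1 = (a * w.1, a * w.2))
    (eu' : u1' = (b * u'.1, b * u'.2)) (ew' : w1' = (b * w'.1, b * w'.2))
    (H : (halfCC s u' w' d u1 w1 && halfCC t u w (ng d) u1' w1') = true) :
    PCross (-(i * u.1 + j * w.1), -(i * u.2 + j * w.2)) (i * u.1 + j * w.1, i * u.2 + j * w.2)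
    (d.1 - (i' * u'.1 + j' * w'.1), d.2 - (i' * u'.2 + j' * w'.2))
    (d.1 + (i' * u'.1 + j' * w'.1), d.2 + (i' * u'.2 + j' * w'.2)) := by
  rw [Bool.and_eq_true] at H
  obtain ⟨A1, A2⟩ := s4_half hi hj hi' hj' H.1
  obtain ⟨B1, B2⟩ := s4_half hi' hj' hi hj H.2
  subst eu ew eu' ew'
  refine s4_comb hs ht ha hb A1 ?_ ?_ ?_
  · refine lt_of_eq_of_lt ?_ A2
    dsimp only
    ring
  · refine lt_of_lt_of_eq B1 ?_
    simp only [ng]
    ring
  · refine lt_of_eq_of_lt ?_ B2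
    simp only [ng]
    ring

theorem s4 : TaskS4 := by
  intro u w d u' w' i j i' j' hi hj hi' hj' H
  simp only [crossCC, Bool.or_eq_true] at H
  have p : (1 : ℤ) = 1 ∨ (1 : ℤ) = -1 := Or.inl rfl
  have m : (-1 : ℤ) = 1 ∨ (-1 : ℤ) = -1 := Or.inr rfl
  have e1 : ∀ v : Pt, v = ((1 : ℤ) * v.1, (1 : ℤ) * v.2) := by intro v; simp
  have e2 : ∀ v : Pt, ng v = ((-1 : ℤ) * v.1, (-1 : ℤ) * v.2) := by intro v; simp [ng]
  rcases H with (((((H | H) | H) | H) | ((((H | H) | H) | H))) | (((H | H) | H) | H)) |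
    (((H | H) | H) | H)
  · exact s4_core p p p p hi hj hi' hj' (e1 _) (e1 _) (e1 _) (e1 _) H
  · exact s4_core p m p p hi hj hi' hj' (e1 _) (e1 _) (e1 _) (e1 _) H
  · exact s4_core m p p p hi hj hi' hj' (e1 _) (e1 _) (e1 _) (e1 _) H
  · exact s4_core m m p p hi hj hi' hj' (e1 _) (e1 _) (e1 _) (e1 _) H
  · exact s4_core p p p m hi hj hi' hj' (e1 _) (e1 _) (e2 _) (e2 _) H
  · exact s4_core p m p m hi hj hi' hj' (e1 _) (e1 _) (e2 _) (e2 _) H
  · exact s4_core m p p m hi hj hi' hj' (e1 _) (e1 _) (e2 _) (e2 _) H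
  · exact s4_core m m p m hi hj hi' hj' (e1 _) (e1 _) (e2 _) (e2 _) H
  · exact s4_core p p m p hi hj hi' hj' (e2 _) (e2 _) (e1 _) (e1 _) H
  · exact s4_core p m m p hi hj hi' hj' (e2 _) (e2 _) (e1 _) (e1 _) H
  · exact s4_core m p m p hi hj hi' hj' (e2 _) (e2 _) (e1 _) (e1 _) H
  · exact s4_core m m m p hi hj hi' hj' (e2 _) (e2 _) (e1 _) (e1 _) H
  · exact s4_core p p m m hi hj hi' hj' (e2 _) (e2 _) (e2 _) (e2 _) H
  · exact s4_core p m m m hi hj hi' hj' (e2 _) (e2 _) (e2 _) (e2 _) H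
  · exact s4_core m p m m hi hj hi' hj' (e2 _) (e2 _) (e2 _) (e2 _) H
  · exact s4_core m m m m hi hj hi' hj' (e2 _) (e2 _) (e2 _) (e2 _) H

end Pool.Agent.W982.TA
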